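import Pool.Agent.H979.BK.Stm

/-! Project BK (helper979), statement B2: variance of linear statistics (helper719). -/

set_option autoImplicit false

open Filter Topology Finset Pool.Agent.H979.BK

namespace Pool.Agent.H719

namespace BKB2

variable {d n k : ℕ} {u : Ball d n → Fin d}

/-- indicator -/
noncomputable def X (A : Finset (Ball d n)) (b : Ball d n) : ℝ := if b ∈ A then 1 else 0

theorem X_sq (A : Finset (Ball d n)) (b : Ball d n) : X A b * X A b = X A b := by
  unfold X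
  split_ifs <;> simp

theorem mem_sel {A : Finset (Ball d n)} :
    A ∈ sel k u ↔ ∀ i, (A.filter fun b => u b = i).card = k := by
  unfold sel
  rw [mem_filter]
  exact and_iff_right (mem_univ _)

theorem map_mem (τ : Equiv.Perm (Ball d n)) (hτ : ∀ b, u (τ b) = u b) {A : Finset (Ball d n)}
    (hA : A ∈ sel k u) : A.map τ.toEmbedding ∈ sel k u := by
  rw [mem_sel] at hA ⊢
  intro i
  rw [← hA i, filter_map, card_map]
  refine congrArg card (filter_congr fun b _ => ?_)
  show u (τ b) = i ↔ u b = i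
  rw [hτ]

theorem sum_map (τ : Equiv.Perm (Ball d n)) (hτ : ∀ b, u (τ b) = u b)
    (f : Finset (Ball d n) → ℝ) :
    ∑ A ∈ sel k u, f (A.map τ.toEmbedding) = ∑ A ∈ sel k u, f A := by
  have hτ' : ∀ b, u (τ.symm b) = u b := fun b => by rw [← hτ (τ.symm b), τ.apply_symm_apply]
  refine Finset.sum_nbij' (fun A => A.map τ.toEmbedding) (fun A => A.map τ.symm.toEmbedding)
    (fun A hA => map_mem τ hτ hA) (fun A hA => map_mem τ.symm hτ' hA) ?_ ?_ (fun _ _ => rfl)
  · intro A _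
    ext b
    simp [mem_map_equiv]
  · intro A _
    ext b
    simp [mem_map_equiv]

theorem X_map (τ : Equiv.Perm (Ball d n)) (A : Finset (Ball d n)) (b : Ball d n) :
    X (A.map τ.toEmbedding) (τ b) = X A b := by
  unfold X
  have h : τ b ∈ A.map τ.toEmbedding ↔ b ∈ A := by
    rw [mem_map_equiv, τ.symm_apply_apply]
  simp only [h]

/-- pair sums -/
noncomputable def NN (k : ℕ) (u : Ball d n → Fin d) (b b' : Ball d n) : ℝ :=
  ∑ A ∈ sel k u, X A b * X A b'

theorem NN_perm (τ : Equiv.Perm (Ball d n)) (hτ : ∀ b, u (τ b) = u b) (b b' : Ball d n) :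
    NN k u (τ b) (τ b') = NN k u b b' := by
  unfold NN
  rw [← sum_map τ hτ (fun A => X A (τ b) * X A (τ b'))]
  simp only [X_map]

theorem swap_u {x y : Ball d n} (h : u x = u y) (b : Ball d n) :
    u (Equiv.swap x y b) = u b := by
  rw [Equiv.swap_apply_def]
  split_ifs with h1 h2
  · rw [h1, h]
  · rw [h2, h]
  · rfl

theorem NN_one {x y : Ball d n} (h : u x = u y) : NN k u x x = NN k u y y := by
  have h1 := NN_perm (k := k) (Equiv.swap x y) (swap_u h) x x
  rw [Equiv.swap_apply_left] at h1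
  exact h1.symm

theorem NN_two {b x y : Ball d n} (h : u x = u y) (hx : b ≠ x) (hy : b ≠ y) :
    NN k u b x = NN k u b y := by
  have h1 := NN_perm (k := k) (Equiv.swap x y) (swap_u h) b x
  rw [Equiv.swap_apply_left, Equiv.swap_apply_of_ne_of_ne hx hy] at h1
  exact h1.symm

theorem sum_X {A : Finset (Ball d n)} (hA : A ∈ sel k u) (i : Fin d) :
    ∑ x ∈ univ.filter (fun x => u x = i), X A x = k := by
  unfold X
  rw [Finset.sum_boole, ← mem_sel.1 hA i, filter_filter]
  refine congrArg (fun s : Finset (Ball d n) => (s.card : ℝ)) ?_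
  ext x
  simp [and_comm]

theorem P1 (hu : Bal u) (b : Ball d n) : (n : ℝ) * NN k u b b = k * (sel k u).card := by
  have h1 : ∑ x ∈ univ.filter (fun x => u x = u b), NN k u x x = n * NN k u b b := by
    rw [sum_congr rfl (fun x hx => NN_one (mem_filter.1 hx).2), sum_const, nsmul_eq_mul,
      hu (u b)]
  rw [← h1]
  unfold NN
  rw [sum_comm]
  simp only [X_sq]
  rw [sum_congr rfl (fun A hA => sum_X hA (u b)), sum_const, nsmul_eq_mul]
  ring

theorem P2 (hu : Bal u) {b b' : Ball d n} (h : b ≠ b') :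
    ((n : ℝ) - if u b = u b' then 1 else 0) * NN k u b b' =
      ((k : ℝ) - if u b = u b' then 1 else 0) * NN k u b b := by
  have hF : (univ.filter (fun x : Ball d n => u x = u b')).card = n := hu (u b')
  have hbF : b ∈ univ.filter (fun x : Ball d n => u x = u b') ↔ u b = u b' := by simp
  have h1 : ∑ x ∈ (univ.filter (fun x : Ball d n => u x = u b')).erase b, NN k u b x =
      (((univ.filter (fun x : Ball d n => u x = u b')).erase b).card : ℝ) * NN k u b b' := by
    rw [sum_congr rfl (fun x hx => NN_two (mem_filter.1 (mem_of_mem_erase hx)).2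
      (ne_of_mem_erase hx).symm h), sum_const, nsmul_eq_mul]
  have h2 : (((univ.filter (fun x : Ball d n => u x = u b')).erase b).card : ℝ) =
      (n : ℝ) - if u b = u b' then 1 else 0 := by
    split_ifs with hc
    · have hm := hbF.2 hc
      have hpos := card_pos.2 ⟨b, hm⟩
      rw [card_erase_of_mem hm, Nat.cast_sub hpos, hF]
      simp
    · rw [erase_eq_of_notMem (fun hm => hc (hbF.1 hm)), hF]
      simp
  rw [← h2, ← h1]
  unfold NN
  rw [sum_comm, mul_sum]
  refine sum_congr rfl fun A hA => ?_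
  rw [← mul_sum, X_sq]
  have hs := sum_X hA (u b')
  split_ifs with hc
  · rw [Finset.sum_erase_eq_sub (hbF.2 hc), hs, mul_sub, X_sq]
    ring
  · rw [erase_eq_of_notMem (fun hm => hc (hbF.1 hm)), hs]
    ring

theorem NN_eq (hu : Bal u) (b b' : Ball d n) :
    NN k u b b' = ((sel k u).card : ℝ) * (((k : ℝ) / n) ^ 2 +
      ((k : ℝ) / n * (1 - (k : ℝ) / n) + (k : ℝ) / n * (1 - (k : ℝ) / n) / ((n : ℝ) - 1)) *
        (if b = b' then 1 else 0) -
      (k : ℝ) / n * (1 - (k : ℝ) / n) / ((n : ℝ) - 1) * (if u b = u b' then 1 else 0)) := by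
  have hn : 0 < n := by
    have := b.2.2
    omega
  have hn0 : (n : ℝ) ≠ 0 := by positivity
  have h1 : NN k u b b = (k : ℝ) / n * (sel k u).card := by
    have := P1 (k := k) hu b
    field_simp
    linarith
  by_cases h : b = b'
  · subst h
    rw [h1]
    simp only [if_true]
    ring
  · have h2 := P2 (k := k) hu h
    rw [h1] at h2
    simp only [if_neg h]
    by_cases hc : u b = u b'
    · simp only [if_pos hc] at h2 ⊢
      have hn2 : 2 ≤ n := by
        have h3 : ({b, b'} : Finset (Ball d n)) ⊆ univ.filter (fun x => u x = u b') := by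
          intro x hx
          rw [mem_insert, mem_singleton] at hx
          rw [mem_filter]
          rcases hx with rfl | rfl
          · exact ⟨mem_univ _, hc⟩
          · exact ⟨mem_univ _, rfl⟩
        have h4 := card_le_card h3
        rw [card_pair h, hu (u b')] at h4
        exact h4
      have hn3 : (n : ℝ) - 1 ≠ 0 := by
        have : (2 : ℝ) ≤ n := by exact_mod_cast hn2
        intro h5
        linarith
      have h3 : NN k u b b' = ((k : ℝ) - 1) * ((k : ℝ) / n * (sel k u).card) / ((n : ℝ) - 1) := by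
        rw [eq_div_iff hn3]
        linarith
      rw [h3]
      field_simp
      ring
    · simp only [if_neg hc] at h2 ⊢
      have h3 : NN k u b b' = ((k : ℝ) * ((k : ℝ) / n * (sel k u).card)) / n := by
        rw [eq_div_iff hn0]
        linarith
      rw [h3]
      field_simp
      ring

theorem mean (hu : Bal u) (c : Ball d n → ℝ) :
    ∑ A ∈ sel k u, ∑ b, X A b * c b = (k : ℝ) / n * (sel k u).card * ∑ b, c b := by
  rw [sum_comm, mul_sum]
  refine sum_congr rfl fun b _ => ?_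
  have hn : 0 < n := by
    have := b.2.2
    omega
  have hn0 : (n : ℝ) ≠ 0 := by positivity
  rw [← sum_mul]
  have h1 : ∑ A ∈ sel k u, X A b = NN k u b b := by
    unfold NN
    simp only [X_sq]
  have h2 := P1 (k := k) hu b
  rw [h1]
  have h3 : NN k u b b = (k : ℝ) / n * (sel k u).card := by
    field_simp
    linarith
  rw [h3]

theorem quad_nonneg (c : Ball d n → ℝ) :
    0 ≤ ∑ b : Ball d n, ∑ b' : Ball d n, c b * c b' * (if u b = u b' then (1 : ℝ) else 0) := by
  have h : ∑ b : Ball d n, ∑ b' : Ball d n, c b * c b' * (if u b = u b' then (1 : ℝ) else 0) =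
      ∑ i : Fin d, (∑ b : Ball d n, if u b = i then c b else 0) ^ 2 := by
    have h1 : ∀ i : Fin d, (∑ b : Ball d n, if u b = i then c b else 0) ^ 2 =
        ∑ b : Ball d n, ∑ b' : Ball d n,
          (if u b = i then c b else 0) * (if u b' = i then c b' else 0) := by
      intro i
      rw [sq, sum_mul_sum]
    simp only [h1]
    refine Eq.symm ?_
    rw [Finset.sum_comm]
    refine sum_congr rfl fun b _ => ?_
    rw [Finset.sum_comm]
    refine sum_congr rfl fun b' _ => ?_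
    rw [sum_eq_single (u b)]
    · rw [if_pos rfl]
      by_cases hc : u b = u b'
      · rw [if_pos hc, if_pos hc.symm]
        ring
      · rw [if_neg hc, if_neg (fun h => hc h.symm)]
        ring
    · intro i _ hi
      rw [if_neg (fun h => hi h.symm), zero_mul]
    · intro h
      exact absurd (mem_univ _) h
  rw [h]
  positivity

theorem var_le (hu : Bal u) (hk : 1 ≤ k) (hkn : k ≤ n) (c : Ball d n → ℝ) :
    ∑ A ∈ sel k u, (∑ b, X A b * c b - (k : ℝ) / n * ∑ b, c b) ^ 2 ≤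
      (sel k u).card * ((k : ℝ) / n * ∑ b, c b ^ 2) := by
  have hn : 0 < n := by omega
  have hn0 : (n : ℝ) ≠ 0 := by positivity
  obtain ⟨δ, hδ⟩ : ∃ δ : ℝ, δ = (k : ℝ) / n := ⟨_, rfl⟩
  obtain ⟨ν, hν⟩ : ∃ ν : ℝ, ν = δ * (1 - δ) / ((n : ℝ) - 1) := ⟨_, rfl⟩
  have hδ0 : 0 ≤ δ := by rw [hδ]; positivity
  have hδ1 : δ ≤ 1 := by
    rw [hδ, div_le_one (by positivity)]
    exact_mod_cast hkn
  have hδn : δ * n = k := by
    rw [hδ]
    field_simp
  have hk' : (1 : ℝ) ≤ k := by exact_mod_cast hk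
  have hν0 : 0 ≤ ν := by
    rw [hν]
    apply div_nonneg (mul_nonneg hδ0 (by linarith))
    have : (1 : ℝ) ≤ n := by exact_mod_cast hn
    linarith
  have hν1 : δ * (1 - δ) + ν ≤ δ := by
    rcases eq_or_lt_of_le (Nat.succ_le_of_lt hn) with h1 | h1
    · have h2 : (n : ℝ) = 1 := by exact_mod_cast h1.symm
      rw [hν, h2]
      simp only [sub_self, div_zero, add_zero]
      nlinarith
    · have h2 : (2 : ℝ) ≤ n := by exact_mod_cast h1
      have h3 : ν ≤ δ * δ := by
        rw [hν, div_le_iff₀ (by linarith)]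
        nlinarith
      nlinarith
  have e1 : ∑ A ∈ sel k u, (∑ b, X A b * c b) ^ 2 = ∑ b, ∑ b', c b * c b' * NN k u b b' := by
    have h1 : ∀ A, (∑ b, X A b * c b) ^ 2 = ∑ b, ∑ b', (X A b * c b) * (X A b' * c b') := by
      intro A
      rw [sq, sum_mul_sum]
    simp only [h1]
    rw [sum_comm]
    refine sum_congr rfl fun b _ => ?_
    rw [sum_comm]
    refine sum_congr rfl fun b' _ => ?_
    unfold NN
    rw [mul_sum]
    refine sum_congr rfl fun A _ => ?_
    ring
  have e2 : ∑ b, ∑ b', c b * c b' * NN k u b b' = ((sel k u).card : ℝ) *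
      (δ ^ 2 * (∑ b, c b) ^ 2 + (δ * (1 - δ) + ν) * ∑ b, c b ^ 2 -
        ν * ∑ b, ∑ b', c b * c b' * (if u b = u b' then 1 else 0)) := by
    have h1 : ∀ b b' : Ball d n, c b * c b' * NN k u b b' = ((sel k u).card : ℝ) * δ ^ 2 *
        (c b * c b') + ((sel k u).card : ℝ) * (δ * (1 - δ) + ν) *
          (if b = b' then c b * c b' else 0) -
        ((sel k u).card : ℝ) * ν * (c b * c b' * (if u b = u b' then 1 else 0)) := by
      intro b b'
      rw [NN_eq hu b b', ← hδ, ← hν]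
      split_ifs <;> ring
    simp only [h1, sum_sub_distrib, sum_add_distrib, ← mul_sum]
    have h2 : ∑ b, ∑ b', (if b = b' then c b * c b' else 0) = ∑ b, c b ^ 2 := by
      refine sum_congr rfl fun b _ => ?_
      rw [sum_ite_eq, if_pos (mem_univ _), sq]
    have h3 : ∑ b, c b * ∑ b', c b' = (∑ b, c b) ^ 2 := by
      rw [← sum_mul, sq]
    rw [h2, h3]
    ring
  have e3 : ∑ A ∈ sel k u, (∑ b, X A b * c b - δ * ∑ b, c b) ^ 2 =
      ∑ A ∈ sel k u, (∑ b, X A b * c b) ^ 2 -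
        2 * (δ * ∑ b, c b) * ∑ A ∈ sel k u, ∑ b, X A b * c b +
        ((sel k u).card : ℝ) * (δ * ∑ b, c b) ^ 2 := by
    have h1 : ∀ A, (∑ b, X A b * c b - δ * ∑ b, c b) ^ 2 = (∑ b, X A b * c b) ^ 2 -
        2 * (δ * ∑ b, c b) * (∑ b, X A b * c b) + (δ * ∑ b, c b) ^ 2 := fun A => by ring
    simp only [h1, sum_sub_distrib, sum_add_distrib, ← mul_sum, sum_const, nsmul_eq_mul]
  rw [← hδ, e3, e1, e2, mean hu c, ← hδ]
  have hQ := quad_nonneg (u := u) c
  have hC : 0 ≤ ∑ b, c b ^ 2 := by positivity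
  have hS : (0 : ℝ) ≤ (sel k u).card := by positivity
  have h4 : (δ * (1 - δ) + ν) * ∑ b, c b ^ 2 ≤ δ * ∑ b, c b ^ 2 :=
    mul_le_mul_of_nonneg_right hν1 hC
  have h5 := mul_nonneg hν0 hQ
  have h6 := mul_le_mul_of_nonneg_left (sub_le_sub h4 h5) hS
  nlinarith

/-- one step with `σ` -/
theorem Ts_le (hu : Bal u) (hk : 1 ≤ k) (hkn : k ≤ n) (σ : Equiv.Perm (Fin d))
    (a : Ball d n → ℝ) (h : Fin d → ℝ) (s : ℝ) :
    Ts k σ (fun v => (∑ b, a b * h (v b) - s) ^ 2) u ≤
      (k : ℝ) / n * ∑ b, (a b * (h (σ (u b)) - h (u b))) ^ 2 +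
        (∑ b, a b * ((1 - (k : ℝ) / n) * h (u b) + (k : ℝ) / n * h (σ (u b))) - s) ^ 2 := by
  obtain ⟨δ, hδ⟩ : ∃ δ : ℝ, δ = (k : ℝ) / n := ⟨_, rfl⟩
  obtain ⟨c, hc⟩ : ∃ c : Ball d n → ℝ, c = fun b => a b * (h (σ (u b)) - h (u b)) := ⟨_, rfl⟩
  obtain ⟨m, hm⟩ : ∃ m : ℝ, m =
    ∑ b, a b * ((1 - δ) * h (u b) + δ * h (σ (u b))) - s := ⟨_, rfl⟩
  have hv := var_le hu hk hkn c
  have hmn := mean (k := k) hu c
  rw [← hδ] at hv hmn ⊢
  have e1 : ∀ A : Finset (Ball d n), (∑ b, a b * h (move σ A u b) - s) =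
      (∑ b, X A b * c b - δ * ∑ b, c b) + m := by
    intro A
    have h1 : ∀ b, a b * h (move σ A u b) = a b * h (u b) + X A b * c b := by
      intro b
      rw [hc]
      unfold move X
      split_ifs <;> ring
    have h2 : ∀ b, a b * ((1 - δ) * h (u b) + δ * h (σ (u b))) = a b * h (u b) + δ * c b := by
      intro b
      rw [hc]
      ring
    rw [hm]
    simp only [h1, h2, sum_add_distrib, ← mul_sum]
    ring
  have e2 : ∑ A ∈ sel k u, (∑ b, a b * h (move σ A u b) - s) ^ 2 =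
      ∑ A ∈ sel k u, (∑ b, X A b * c b - δ * ∑ b, c b) ^ 2 + ((sel k u).card : ℝ) * m ^ 2 := by
    have h1 : ∀ A ∈ sel k u, (∑ b, a b * h (move σ A u b) - s) ^ 2 =
        (∑ b, X A b * c b - δ * ∑ b, c b) ^ 2 + 2 * m * ((∑ b, X A b * c b) - δ * ∑ b, c b) +
          m ^ 2 := by
      intro A _
      rw [e1 A]
      ring
    rw [sum_congr rfl h1, sum_add_distrib, sum_add_distrib, ← mul_sum, sum_sub_distrib, hmn,
      sum_const, sum_const, nsmul_eq_mul, nsmul_eq_mul]
    ring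
  have e3 : Ts k σ (fun v => (∑ b, a b * h (v b) - s) ^ 2) u =
      (∑ A ∈ sel k u, (∑ b, a b * h (move σ A u b) - s) ^ 2) / ((sel k u).card : ℝ) := rfl
  rw [e3, e2]
  have hc2 : ∑ b, (a b * (h (σ (u b)) - h (u b))) ^ 2 = ∑ b, c b ^ 2 := by rw [hc]
  rw [hc2, ← hm]
  have hδ0 : 0 ≤ δ := by rw [hδ]; positivity
  have hpos : 0 ≤ δ * ∑ b, c b ^ 2 := mul_nonneg hδ0 (by positivity)
  rcases Nat.eq_zero_or_pos (sel k u).card with h0 | h0
  · rw [h0]
    simp only [Nat.cast_zero, div_zero]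
    positivity
  · have h1 : (0 : ℝ) < (sel k u).card := by exact_mod_cast h0
    rw [div_le_iff₀ h1]
    linarith

theorem mulVec_AU (μ : Equiv.Perm (Fin d) → ℝ) (δ : ℝ) (h : Fin d → ℝ) (i : Fin d) :
    (AU μ δ).mulVec h i = (1 - δ) * h i + δ * ∑ σ, μ σ * h (σ i) := by
  unfold AU
  rw [Matrix.add_mulVec, Matrix.smul_mulVec, Matrix.smul_mulVec, Matrix.one_mulVec]
  have e : (U μ).mulVec h i = ∑ σ, μ σ * h (σ i) := by
    show ∑ j, U μ i j * h j = _
    unfold U
    simp only [sum_mul]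
    rw [sum_comm]
    refine sum_congr rfl fun σ _ => ?_
    simp only [ite_mul, zero_mul]
    rw [sum_ite_eq, if_pos (mem_univ _)]
  rw [← e]
  rfl

theorem avg_abs {μ : Equiv.Perm (Fin d) → ℝ} (hμ : IsProb μ) {h : Fin d → ℝ} {H : ℝ}
    (hh : ∀ i, |h i| ≤ H) (i : Fin d) : |∑ σ, μ σ * h (σ i)| ≤ H := by
  calc |∑ σ, μ σ * h (σ i)| ≤ ∑ σ, |μ σ * h (σ i)| := abs_sum_le_sum_abs _ _
    _ ≤ ∑ σ, μ σ * H := by
        refine sum_le_sum fun σ _ => ?_
        rw [abs_mul, abs_of_nonneg (hμ.1 σ)]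
        exact mul_le_mul_of_nonneg_left (hh _) (hμ.1 σ)
    _ = H := by rw [← sum_mul, hμ.2, one_mul]

/-- one step -/
theorem T_le (hu : Bal u) (hk : 1 ≤ k) (hkn : k ≤ n) {μ : Equiv.Perm (Fin d) → ℝ}
    (hμ : IsProb μ) (a : Ball d n → ℝ) (h : Fin d → ℝ) (s H : ℝ) (ha : ∀ b, |a b| ≤ 1)
    (hh : ∀ i, |h i| ≤ H) :
    T μ k (fun v => (∑ b, a b * h (v b) - s) ^ 2) u ≤
      (∑ b, a b * (AU μ ((k : ℝ) / n)).mulVec h (u b) - s) ^ 2 +
      4 * H ^ 2 * ((k : ℝ) / n * (univ.filter fun b => a b ≠ 0).card +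
        ((k : ℝ) / n * (univ.filter fun b => a b ≠ 0).card) ^ 2) := by
  have hn : 0 < n := by omega
  obtain ⟨δ, hδ⟩ : ∃ δ : ℝ, δ = (k : ℝ) / n := ⟨_, rfl⟩
  obtain ⟨D, hD⟩ : ∃ D : ℝ, D = ((univ.filter fun b => a b ≠ 0).card : ℝ) := ⟨_, rfl⟩
  have hδ0 : 0 ≤ δ := by rw [hδ]; positivity
  rw [← hδ, ← hD]
  -- the means
  obtain ⟨M, hM⟩ : ∃ M : Equiv.Perm (Fin d) → ℝ, M = fun σ =>
    ∑ b, a b * ((1 - δ) * h (u b) + δ * h (σ (u b))) := ⟨_, rfl⟩
  obtain ⟨B, hB⟩ : ∃ B : ℝ, B = ∑ b, a b * (AU μ δ).mulVec h (u b) := ⟨_, rfl⟩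
  have hMB : ∑ σ, μ σ * M σ = B := by
    rw [hM, hB]
    simp only [mul_sum]
    rw [sum_comm]
    refine sum_congr rfl fun b _ => ?_
    rw [mulVec_AU]
    have h1 : ∀ σ, μ σ * (a b * ((1 - δ) * h (u b) + δ * h (σ (u b)))) =
        μ σ * (a b * ((1 - δ) * h (u b))) + a b * δ * (μ σ * h (σ (u b))) := fun σ => by ring
    simp only [h1, sum_add_distrib, ← sum_mul, hμ.2, ← mul_sum]
    ring
  have hsum : ∀ f : Ball d n → ℝ, ∀ K : ℝ, (∀ b, a b ≠ 0 → f b ≤ K) → (∀ b, a b = 0 → f b ≤ 0) →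
      ∑ b, f b ≤ K * D := by
    intro f K h1 h2
    calc ∑ b, f b ≤ ∑ b, (if a b ≠ 0 then K else 0) := by
          refine sum_le_sum fun b _ => ?_
          split_ifs with hb
          · exact h1 b hb
          · exact h2 b (not_not.1 hb)
      _ = K * D := by
          rw [← sum_filter, sum_const, nsmul_eq_mul, hD]
          ring
  have h1 : ∀ σ : Equiv.Perm (Fin d), δ * ∑ b, (a b * (h (σ (u b)) - h (u b))) ^ 2 ≤ 4 * H ^ 2 * (δ * D) := by
    intro σ
    have h2 : ∑ b, (a b * (h (σ (u b)) - h (u b))) ^ 2 ≤ 4 * H ^ 2 * D := by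
      refine hsum _ _ (fun b _ => ?_) (fun b hb => ?_)
      · have h3 : |a b * (h (σ (u b)) - h (u b))| ≤ 1 * (2 * H) := by
          rw [abs_mul]
          refine mul_le_mul (ha b) ?_ (abs_nonneg _) zero_le_one
          refine (abs_sub _ _).trans ?_
          have h4 := hh (σ (u b))
          have h5 := hh (u b)
          linarith
        have h4 := pow_le_pow_left₀ (abs_nonneg _) h3 2
        rw [sq_abs] at h4
        linarith
      · rw [hb, zero_mul]
        norm_num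
    have h3 := mul_le_mul_of_nonneg_left h2 hδ0
    linarith
  have h2 : ∀ σ, (M σ - B) ^ 2 ≤ 4 * H ^ 2 * (δ * D) ^ 2 := by
    intro σ
    have h3 : |M σ - B| ≤ 2 * H * (δ * D) := by
      have h4 : M σ - B = δ * ∑ b, a b * (h (σ (u b)) - ∑ τ, μ τ * h (τ (u b))) := by
        rw [hM, hB, ← sum_sub_distrib, mul_sum]
        refine sum_congr rfl fun b _ => ?_
        rw [mulVec_AU]
        ring
      rw [h4, abs_mul, abs_of_nonneg hδ0]
      have h5 : |∑ b, a b * (h (σ (u b)) - ∑ τ, μ τ * h (τ (u b)))| ≤ 2 * H * D := by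
        refine (abs_sum_le_sum_abs _ _).trans (hsum _ _ (fun b _ => ?_) (fun b hb => ?_))
        · rw [abs_mul]
          have h6 : |h (σ (u b)) - ∑ τ, μ τ * h (τ (u b))| ≤ 2 * H := by
            refine (abs_sub _ _).trans ?_
            have h7 := hh (σ (u b))
            have h8 := avg_abs hμ hh (u b)
            linarith
          have h9 := mul_le_mul (ha b) h6 (abs_nonneg _) zero_le_one
          linarith
        · rw [hb, zero_mul, abs_zero]
      have h6 := mul_le_mul_of_nonneg_left h5 hδ0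
      linarith
    have h4 := pow_le_pow_left₀ (abs_nonneg _) h3 2
    rw [sq_abs] at h4
    refine h4.trans (le_of_eq ?_)
    ring
  have h3 : T μ k (fun v => (∑ b, a b * h (v b) - s) ^ 2) u ≤
      ∑ σ, μ σ * (4 * H ^ 2 * (δ * D) + (M σ - s) ^ 2) := by
    unfold T
    refine sum_le_sum fun σ _ => mul_le_mul_of_nonneg_left ?_ (hμ.1 σ)
    have h4 := Ts_le hu hk hkn σ a h s
    rw [← hδ] at h4
    have h5 := h1 σ
    have h6 : M σ = ∑ b, a b * ((1 - δ) * h (u b) + δ * h (σ (u b))) := by rw [hM]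
    rw [← h6] at h4
    linarith
  have h4 : ∀ σ, μ σ * (4 * H ^ 2 * (δ * D) + (M σ - s) ^ 2) =
      μ σ * (4 * H ^ 2 * (δ * D)) + μ σ * (M σ - B) ^ 2 + 2 * (B - s) * (μ σ * M σ) -
        μ σ * (2 * (B - s) * B) + μ σ * (B - s) ^ 2 := fun σ => by ring
  have h5 : ∑ σ, μ σ * (M σ - B) ^ 2 ≤ 4 * H ^ 2 * (δ * D) ^ 2 := by
    calc ∑ σ, μ σ * (M σ - B) ^ 2 ≤ ∑ σ, μ σ * (4 * H ^ 2 * (δ * D) ^ 2) :=
          sum_le_sum fun σ _ => mul_le_mul_of_nonneg_left (h2 σ) (hμ.1 σ)
      _ = _ := by rw [← sum_mul, hμ.2, one_mul]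
  refine h3.trans ?_
  simp only [h4, sum_sub_distrib, sum_add_distrib, ← sum_mul, ← mul_sum, hμ.2, hMB]
  rw [← hB]
  nlinarith

end BKB2

open BKB2 in
theorem bk_b2 (hA1 : S_A1) : S_B2 := by
  intro d n k μ hμ hk hkn m a h H ha hh
  obtain ⟨C, hC⟩ : ∃ C : ℝ, C = (k : ℝ) / n * (univ.filter fun b => a b ≠ 0).card +
      ((k : ℝ) / n * (univ.filter fun b => a b ≠ 0).card) ^ 2 := ⟨_, rfl⟩
  have hn : 0 < n := by omega
  have hδ0 : (0 : ℝ) ≤ (k : ℝ) / n := by positivity
  have hδ1 : (k : ℝ) / n ≤ 1 := by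
    rw [div_le_one (by positivity)]
    exact_mod_cast hkn
  have key : ∀ (m : ℕ) (h : Fin d → ℝ), (∀ i, |h i| ≤ H) → ∀ s : ℝ,
      E μ k m (fun u => (∑ b, a b * h (u b) - s) ^ 2) ≤
        (∑ b, a b * ((AU μ ((k : ℝ) / n)) ^ m).mulVec h b.1 - s) ^ 2 + 4 * H ^ 2 * m * C := by
    intro m
    induction m with
    | zero =>
      intro h _ s
      rw [pow_zero, Matrix.one_mulVec, Nat.cast_zero, mul_zero, zero_mul, add_zero]
      exact le_of_eq rfl
    | succ m ih =>
      intro h hh s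
      have e1 : E μ k (m + 1) (fun u => (∑ b, a b * h (u b) - s) ^ 2) =
          E μ k m (T μ k (fun u => (∑ b, a b * h (u b) - s) ^ 2)) := by
        unfold E
        rw [Function.iterate_succ_apply]
      obtain ⟨p, hp0, hp1, hpB, hpE⟩ := hA1 d n k μ hμ hkn m
      have hh' : ∀ i, |(AU μ ((k : ℝ) / n)).mulVec h i| ≤ H := by
        intro i
        rw [mulVec_AU]
        have h1 := avg_abs hμ hh i
        have h2 := hh i
        calc |(1 - (k : ℝ) / n) * h i + (k : ℝ) / n * ∑ σ, μ σ * h (σ i)| ≤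
            |(1 - (k : ℝ) / n) * h i| + |(k : ℝ) / n * ∑ σ, μ σ * h (σ i)| := abs_add_le _ _
          _ = (1 - (k : ℝ) / n) * |h i| + (k : ℝ) / n * |∑ σ, μ σ * h (σ i)| := by
              rw [abs_mul, abs_mul, abs_of_nonneg hδ0, abs_of_nonneg (by linarith)]
          _ ≤ (1 - (k : ℝ) / n) * H + (k : ℝ) / n * H := by
              refine add_le_add (mul_le_mul_of_nonneg_left h2 (by linarith))
                (mul_le_mul_of_nonneg_left h1 hδ0)
          _ = H := by ring
      have h3 : E μ k m (T μ k (fun u => (∑ b, a b * h (u b) - s) ^ 2)) ≤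
          E μ k m (fun u => (∑ b, a b * (AU μ ((k : ℝ) / n)).mulVec h (u b) - s) ^ 2) +
            4 * H ^ 2 * C := by
        rw [hpE, hpE]
        have h4 : ∑ u, p u * (∑ b, a b * (AU μ ((k : ℝ) / n)).mulVec h (u b) - s) ^ 2 +
            4 * H ^ 2 * C = ∑ u, p u * ((∑ b, a b * (AU μ ((k : ℝ) / n)).mulVec h (u b) - s) ^ 2 +
              4 * H ^ 2 * C) := by
          simp only [mul_add, sum_add_distrib, ← sum_mul, hp1, one_mul]
        rw [h4]
        refine sum_le_sum fun u _ => ?_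
        by_cases hu : Bal u
        · refine mul_le_mul_of_nonneg_left ?_ (hp0 u)
          rw [hC]
          exact T_le hu hk hkn hμ a h s H ha hh
        · rw [hpB u hu, zero_mul, zero_mul]
      have h4 := ih _ hh' s
      have e2 : ((AU μ ((k : ℝ) / n)) ^ m).mulVec ((AU μ ((k : ℝ) / n)).mulVec h) =
          ((AU μ ((k : ℝ) / n)) ^ (m + 1)).mulVec h := by
        rw [Matrix.mulVec_mulVec, ← pow_succ]
      rw [e2] at h4
      rw [e1]
      refine (h3.trans (add_le_add_left h4 _)).trans (le_of_eq ?_)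
      push_cast
      ring
  have h1 := key m h hh (∑ b, a b * ((AU μ ((k : ℝ) / n)) ^ m).mulVec h b.1)
  rw [sub_self, zero_pow two_ne_zero, zero_add, hC] at h1
  exact h1

end Pool.Agent.H719
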