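import Pool.Agent.H867.FT.Gen2

/-!
# Small facts on `k[[X_1..X_d]]` (statement `S_RES` of helper867)
-/

namespace Pool.Agent.H719.FT867RES

open MvPowerSeries IsLocalRing

theorem mem_max {k : Type} [Field k] {d : ℕ} (g : MvPowerSeries (Fin d) k) :
    g ∈ maximalIdeal (MvPowerSeries (Fin d) k) ↔ constantCoeff g = 0 := by
  rw [mem_maximalIdeal, mem_nonunits_iff, MvPowerSeries.isUnit_iff_constantCoeff,
    isUnit_iff_ne_zero, not_not]

theorem const_mem {k : Type} [Field k] {d : ℕ} (c : k)
    (h : (C c : MvPowerSeries (Fin d) k) ∈ maximalIdeal (MvPowerSeries (Fin d) k)) : c = 0 := by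
  rw [mem_max, constantCoeff_C] at h
  exact h

theorem exists_const {k : Type} [Field k] {d : ℕ} (g : MvPowerSeries (Fin d) k) :
    ∃ c : k, g - C c ∈ maximalIdeal (MvPowerSeries (Fin d) k) := by
  refine ⟨constantCoeff g, ?_⟩
  rw [mem_max, map_sub, constantCoeff_C, sub_self]

theorem res_alg {k : Type} [Field k] {d : ℕ} (hk : IsAlgClosed k) :
    IsAlgClosed (ResidueField (MvPowerSeries (Fin d) k)) := by
  let φ : k →+* ResidueField (MvPowerSeries (Fin d) k) :=
    (residue (MvPowerSeries (Fin d) k)).comp C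
  have hφ : Function.Bijective φ := by
    refine ⟨φ.injective, fun y => ?_⟩
    obtain ⟨g, rfl⟩ := residue_surjective y
    obtain ⟨c, hc⟩ := exists_const g
    refine ⟨c, ?_⟩
    have h1 : residue (MvPowerSeries (Fin d) k) (g - C c) = 0 := by
      rw [residue_eq_zero_iff]; exact hc
    rw [map_sub, sub_eq_zero] at h1
    exact h1.symm
  exact IsAlgClosed.of_ringEquiv k _ (RingEquiv.ofBijective φ hφ)

theorem res : Pool.Agent.H867.FT.S_RES := by
  intro k _ d
  exact ⟨inferInstance, fun h => res_alg h, exists_const, const_mem⟩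

end Pool.Agent.H719.FT867RES
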