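import Pool.Agent.H770.GS.TK
import Pool.Agent.H397.TF6

/-!
# TK1: lower bound for the characteristic function (Chebyshev)
-/

set_option autoImplicit false

open MeasureTheory Set intervalIntegral Filter Topology

namespace Pool.Agent.H719.TK1

open Pool.Agent.H770.GS
open Pool.Agent.H397.TF6 (sinc_mul_ge cont_w cont_k ck_zero ck_zero_pos)

theorem sinc_anti {u v x : ℝ} (hu : 0 ≤ u) (huv : u ≤ v) (hv : v ≤ 1) (hx : 0 ≤ x)
    (hxp : x ≤ Real.pi) : Real.sinc (v * x) ≤ Real.sinc (u * x) := by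
  rcases (hu.trans huv).eq_or_lt with h | h
  · have h1 : u = v := by linarith
    rw [h1]
  · have h1 := sinc_mul_ge (u := u / v) (x := v * x) (div_nonneg hu h.le) ((div_le_one h).2 huv)
      (mul_nonneg h.le hx) (by nlinarith [Real.pi_pos])
    have h2 : u / v * (v * x) = u * x := by field_simp
    rw [h2] at h1
    exact h1

theorem cont_s (x : ℝ) : Continuous fun u : ℝ => Real.sinc (u * x) :=
  Real.continuous_sinc.comp (continuous_id.mul (continuous_const (y := x)))

theorem mean_sinc {x : ℝ} (hx : 0 < x) : (∫ u in (0:ℝ)..1, u ^ 2 * Real.sinc (u * x)) =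
    (Real.sin x - x * Real.cos x) / x ^ 3 := by
  have h1 : ∀ u : ℝ, u ^ 2 * Real.sinc (u * x) = u * Real.sin (u * x) / x := by
    intro u
    rcases eq_or_ne u 0 with h | h
    · rw [h]; simp
    · rw [Real.sinc_of_ne_zero (mul_ne_zero h hx.ne')]
      field_simp
  simp only [h1]
  have h2 : ∀ u : ℝ, HasDerivAt (fun u : ℝ => (Real.sin (u * x) - u * x * Real.cos (u * x)) / x ^ 3)
      (u * Real.sin (u * x) / x) u := by
    intro u
    have ha : HasDerivAt (fun u : ℝ => u * x) x u := by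
      have := (hasDerivAt_id u).mul_const x
      rw [one_mul] at this
      exact this
    have hs := ha.sin
    have hc := ha.cos
    have h3 := (hs.sub (ha.mul hc)).div_const (x ^ 3)
    have h4 : (Real.cos (u * x) * x - (x * Real.cos (u * x) + u * x * (-Real.sin (u * x) * x))) /
        x ^ 3 = u * Real.sin (u * x) / x := by
      field_simp
      ring
    rw [h4] at h3
    exact h3
  rw [intervalIntegral.integral_eq_sub_of_hasDerivAt (fun u _ => h2 u)]
  · simp
  · exact Continuous.intervalIntegrable (by fun_prop) _ _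

theorem cheb {ε x : ℝ} (hε : 0 < ε) (hx : 0 < x) (hxp : x ≤ Real.pi) :
    ck ε 0 * (3 * ((Real.sin x - x * Real.cos x) / x ^ 3)) ≤ ck ε x := by
  rw [← mean_sinc hx]
  set M := ∫ u in (0:ℝ)..1, u ^ 2 * Real.sinc (u * x) with hM
  have hi1 : IntervalIntegrable (fun u : ℝ => u ^ 2 * Real.sinc (u * x)) volume 0 1 :=
    ((continuous_pow 2).mul (cont_s x)).intervalIntegrable _ _
  have hsq : (∫ u in (0:ℝ)..1, u ^ 2) = 1 / 3 := by
    rw [integral_pow]; norm_num
  have hM1 : M ≤ 1 / 3 := by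
    rw [← hsq]
    apply intervalIntegral.integral_mono_on zero_le_one hi1
      ((continuous_pow 2).intervalIntegrable _ _)
    intro u _
    exact mul_le_of_le_one_right (sq_nonneg u) (Real.sinc_le_one _)
  have hM0 : 1 / 3 * Real.sinc x ≤ M := by
    rw [← hsq, ← intervalIntegral.integral_mul_const]
    apply intervalIntegral.integral_mono_on zero_le_one
      (((continuous_pow 2).mul continuous_const).intervalIntegrable _ _) hi1
    intro u hu
    exact mul_le_mul_of_nonneg_left (sinc_mul_ge hu.1 hu.2 hx.le hxp) (sq_nonneg u)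
  obtain ⟨u0, hu0, hg⟩ : ∃ u0 ∈ Icc (0:ℝ) 1, Real.sinc (u0 * x) = 3 * M := by
    have h1 := intermediate_value_Icc' (zero_le_one (α := ℝ)) (cont_s x).continuousOn
    have h2 : 3 * M ∈ Icc (Real.sinc (1 * x)) (Real.sinc (0 * x)) := by
      rw [one_mul, zero_mul, Real.sinc_zero]
      constructor <;> linarith
    obtain ⟨u0, h3, h4⟩ := h1 h2
    exact ⟨u0, h3, h4⟩
  have h1 : 0 ≤ ∫ u in (0:ℝ)..1, (u ^ 2 * Real.exp (-(ε * u ^ 2)) * Real.sinc (u * x) -
      3 * M * (u ^ 2 * Real.exp (-(ε * u ^ 2)))) -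
      (Real.exp (-(ε * u0 ^ 2)) * (u ^ 2 * Real.sinc (u * x)) -
        Real.exp (-(ε * u0 ^ 2)) * (3 * M) * u ^ 2) := by
    apply intervalIntegral.integral_nonneg zero_le_one
    intro u hu
    have h2 : (u ^ 2 * Real.exp (-(ε * u ^ 2)) * Real.sinc (u * x) -
      3 * M * (u ^ 2 * Real.exp (-(ε * u ^ 2)))) -
      (Real.exp (-(ε * u0 ^ 2)) * (u ^ 2 * Real.sinc (u * x)) -
        Real.exp (-(ε * u0 ^ 2)) * (3 * M) * u ^ 2) =
        u ^ 2 * ((Real.sinc (u * x) - Real.sinc (u0 * x)) *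
          (Real.exp (-(ε * u ^ 2)) - Real.exp (-(ε * u0 ^ 2)))) := by
      rw [hg]; ring
    rw [h2]
    apply mul_nonneg (sq_nonneg u)
    rcases le_total u u0 with h | h
    · apply mul_nonneg (sub_nonneg.2 (sinc_anti hu.1 h hu0.2 hx.le hxp))
      apply sub_nonneg.2 (Real.exp_le_exp.2 _)
      have := mul_le_mul_of_nonneg_left (pow_le_pow_left₀ hu.1 h 2) hε.le
      linarith
    · apply mul_nonneg_of_nonpos_of_nonpos (sub_nonpos.2 (sinc_anti hu0.1 h hu.2 hx.le hxp))
      apply sub_nonpos.2 (Real.exp_le_exp.2 _)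
      have := mul_le_mul_of_nonneg_left (pow_le_pow_left₀ hu0.1 h 2) hε.le
      linarith
  have i1 : IntervalIntegrable (fun u : ℝ => u ^ 2 * Real.exp (-(ε * u ^ 2)) *
      Real.sinc (u * x)) volume 0 1 := (cont_k ε x).intervalIntegrable _ _
  have i2 : IntervalIntegrable (fun u : ℝ => 3 * M * (u ^ 2 * Real.exp (-(ε * u ^ 2))))
      volume 0 1 :=
    (continuous_const.mul ((continuous_pow 2).mul (cont_w ε))).intervalIntegrable _ _
  have i3 : IntervalIntegrable (fun u : ℝ => Real.exp (-(ε * u0 ^ 2)) *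
      (u ^ 2 * Real.sinc (u * x))) volume 0 1 :=
    (continuous_const.mul ((continuous_pow 2).mul (cont_s x))).intervalIntegrable _ _
  have i4 : IntervalIntegrable (fun u : ℝ => Real.exp (-(ε * u0 ^ 2)) * (3 * M) * u ^ 2)
      volume 0 1 := (continuous_const.mul (continuous_pow 2)).intervalIntegrable _ _
  rw [intervalIntegral.integral_sub (i1.sub i2) (i3.sub i4), intervalIntegral.integral_sub i1 i2,
    intervalIntegral.integral_sub i3 i4, intervalIntegral.integral_const_mul,
    intervalIntegral.integral_const_mul, intervalIntegral.integral_const_mul, ← ck_zero, ← hM,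
    hsq] at h1
  have h2 : ck ε x = ∫ u in (0:ℝ)..1, u ^ 2 * Real.exp (-(ε * u ^ 2)) * Real.sinc (u * x) := rfl
  rw [← h2] at h1
  linarith

theorem t_TK1 : S_TK1 := by
  intro H ε hε
  obtain ⟨hz, ha, -, -, -, -, -⟩ := H ε hε
  have hp : 0 < Real.exp (-ε) := Real.exp_pos _
  have hk0 := ck_zero_pos ε
  have hcf0 : cf ε 0 = 1 := by
    have h1 : (∫ u in (0:ℝ)..1, Real.exp (-(ε * u ^ 2)) * Real.cos (0 * u)) = zt ε := by
      simp only [zero_mul, Real.cos_zero, mul_one, zt]
    rw [cf, h1, div_self hz.ne']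
  have hz2 : zt ε = Real.exp (-ε) + 2 * ε * ck ε 0 := by
    have h1 := ha 0
    rw [hcf0, Real.sinc_zero, mul_one, mul_one] at h1
    exact h1
  have h2k : 0 < 2 * ε * ck ε 0 := by positivity
  refine ⟨div_pos hp hz, (div_lt_one hz).2 (by linarith), fun x hx hxp => ?_⟩
  have h1 := cheb hε hx hxp
  have h2 : zt ε * rh ε = Real.exp (-ε) := by
    rw [rh]; field_simp
  have h3 : zt ε * lb (rh ε) x = Real.exp (-ε) * Real.sinc x +
      2 * ε * (ck ε 0 * (3 * ((Real.sin x - x * Real.cos x) / x ^ 3))) := by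
    have h4 : zt ε * lb (rh ε) x = zt ε * rh ε * Real.sinc x +
        (zt ε - zt ε * rh ε) * (3 * (Real.sin x - x * Real.cos x) / x ^ 3) := by
      rw [lb]; ring
    rw [h4, h2, hz2]
    ring
  have h4 : zt ε * lb (rh ε) x ≤ zt ε * cf ε x := by
    rw [h3, ha x]
    have := mul_le_mul_of_nonneg_left h1 (by positivity : (0:ℝ) ≤ 2 * ε)
    linarith
  exact le_of_mul_le_mul_left h4 hz

end Pool.Agent.H719.TK1
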